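import Pool.Agent.L0h30.TG.Stm

set_option autoImplicit false

/-! # Project TG, module GIR -/

namespace Pool.Agent.L0h2.TG

open Function Pool.Agent.L0h30.TG

theorem vadd {k : ℕ} [NeZero k] (hk : 1 < k) (i : Fin k) :
    (i + 1 : Fin k).1 = (i.1 + 1) % k := by
  have h1 : (1 : Fin k).1 = 1 := by
    first
      | exact (Fin.val_one' k).trans (Nat.mod_eq_of_lt hk)
      | exact Nat.mod_eq_of_lt hk
  rw [Fin.val_add, h1]

theorem girth_le_of_fin {ι : Type} {Γ : SimpleGraph ι} (n : ℕ) (f : ℕ → ι)
    (hinj : ∀ s t, s < n + 3 → t < n + 3 → f s = f t → s = t)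
    (hadj : ∀ t, t + 1 < n + 3 → Γ.Adj (f t) (f (t + 1))) (hlast : Γ.Adj (f (n + 2)) (f 0)) :
    Γ.girth ≤ n + 3 := by
  have hstep : ∀ u v : Fin (n + 3), v - u = 1 → Γ.Adj (f u.1) (f v.1) := by
    intro u v huv
    have hv : v = u + 1 := by rw [← huv]; abel
    rcases Nat.lt_or_ge (u.1 + 1) (n + 3) with h | h
    · have h1 : v.1 = u.1 + 1 := by
        rw [hv, vadd (by omega : 1 < n + 3)]
        exact Nat.mod_eq_of_lt h
      rw [h1]
      exact hadj _ h
    · have h0 : u.1 = n + 2 := by have := u.2; omega
      have h1 : v.1 = 0 := by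
        rw [hv, vadd (by omega : 1 < n + 3), h0]
        exact Nat.mod_self _
      rw [h0, h1]
      exact hlast
  let F : SimpleGraph.cycleGraph (n + 3) →g Γ :=
    { toFun := fun i => f i.1
      map_rel' := by
        intro u v huv
        rw [SimpleGraph.cycleGraph_adj] at huv
        rcases huv with h | h
        · exact (hstep v u h).symm
        · exact hstep u v h }
  have hF : Injective F := by
    intro s t hst
    exact Fin.ext (hinj s.1 t.1 s.2 t.2 hst)
  have hc := (SimpleGraph.cycleGraph.isCycle_cycle (n := n)).map hF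
  have h2 := SimpleGraph.girth_le_length hc
  rw [SimpleGraph.Walk.length_map] at h2
  simpa using h2

theorem t_GIR : S_GIR := by
  classical
  intro ι _ Γ hg
  have hac : ¬ Γ.IsAcyclic := by
    intro h
    rw [← SimpleGraph.girth_eq_zero] at h
    omega
  refine ⟨?_, ?_⟩
  · intro u v w huv hvw huw
    have h1 : Γ.girth ≤ 0 + 3 := by
      apply girth_le_of_fin 0 (fun t => if t = 0 then u else if t = 1 then v else w)
      · intro s t hs ht hst
        have e1 := huv.ne
        have e2 := hvw.ne
        have e3 := huw.ne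
        interval_cases s <;> interval_cases t <;> simp_all
      · intro t ht
        have ht' : t = 0 ∨ t = 1 := by omega
        rcases ht' with rfl | rfl
        · simpa using huv
        · simpa using hvw
      · simpa using huw.symm
    omega
  · obtain ⟨a, w, hw, hl⟩ := SimpleGraph.exists_girth_eq_length.2 hac
    obtain ⟨k, hk⟩ : ∃ k, k = w.length := ⟨_, rfl⟩
    have hk5 : 5 ≤ k := by omega
    have : NeZero k := ⟨by omega⟩
    have hinj : ∀ s t, s < k → t < k → w.getVert s = w.getVert t → s = t := by
      intro s t hs ht hst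
      exact hw.getVert_injOn' (by simp; omega) (by simp; omega) hst
    have hadj : ∀ t, t < k → Γ.Adj (w.getVert t) (w.getVert (t + 1)) := by
      intro t ht
      exact w.adj_getVert_succ (by omega)
    have h0k : w.getVert k = w.getVert 0 := by
      rw [hk]
      simp
    have hval : ∀ i : Fin k, w.getVert (i + 1 : Fin k).1 = w.getVert (i.1 + 1) := by
      intro i
      rcases Nat.lt_or_ge (i.1 + 1) k with h | h
      · rw [vadd (by omega : 1 < k), Nat.mod_eq_of_lt h]
      · have h1 : i.1 + 1 = k := by have := i.2; omega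
        rw [vadd (by omega : 1 < k), h1, Nat.mod_self, h0k]
    have key : ∀ i j : Fin k, i.1 < j.1 → Γ.Adj (w.getVert i.1) (w.getVert j.1) →
        j = i + 1 ∨ i = j + 1 := by
      intro i j hij hA
      by_contra hcon
      rw [not_or] at hcon
      obtain ⟨c1, c2⟩ := hcon
      have hj := j.2
      have d1 : j.1 ≠ i.1 + 1 := by
        intro h
        apply c1
        apply Fin.ext
        rw [vadd (by omega : 1 < k),
          Nat.mod_eq_of_lt (by omega), h]
      have d2 : ¬ (i.1 = 0 ∧ j.1 + 1 = k) := by
        rintro ⟨h, h'⟩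
        apply c2
        apply Fin.ext
        rw [vadd (by omega : 1 < k), h', Nat.mod_self, h]
      obtain ⟨n, hn⟩ : ∃ n, j.1 = i.1 + n + 2 := ⟨j.1 - i.1 - 2, by omega⟩
      have h1 : Γ.girth ≤ n + 3 := by
        apply girth_le_of_fin n (fun t => w.getVert (i.1 + t))
        · intro s t hs ht hst
          have := hinj (i.1 + s) (i.1 + t) (by omega) (by omega) hst
          omega
        · intro t ht
          exact hadj (i.1 + t) (by omega)
        · show Γ.Adj (w.getVert (i.1 + (n + 2))) (w.getVert (i.1 + 0))
          have e : i.1 + (n + 2) = j.1 := by omega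
          rw [e, Nat.add_zero]
          exact hA.symm
      omega
    refine ⟨k, inferInstance, fun i => w.getVert i.1, hk5, ?_, ?_, ?_⟩
    · intro s t hst
      exact Fin.ext (hinj s.1 t.1 s.2 t.2 hst)
    · intro i
      show Γ.Adj (w.getVert i.1) (w.getVert (i + 1 : Fin k).1)
      rw [hval]
      exact hadj i.1 i.2
    · intro i j hA
      rcases Nat.lt_trichotomy i.1 j.1 with h | h | h
      · exact key i j h hA
      · exfalso
        have hA' : Γ.Adj (w.getVert i.1) (w.getVert j.1) := hA
        rw [h] at hA'
        exact hA'.ne rfl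
      · exact (key j i h hA.symm).symm

end Pool.Agent.L0h2.TG
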